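import Pool.Agent.R564.OnOff.Dim

/-!
# MP_7df715_lc, Q2: the number of facets of `conv(Z)` is not polynomially bounded

For `α = β = 1`, `γ = 2`, `δ = n - 1` and `n = 7 u + 2` the polytope `conv(Z(n, α, β, γ, δ))` has at
least `2 ^ u` facets.
-/

set_option autoImplicit false

open Set Filter Asymptotics Polynomial

namespace Pool.Agent.Results.MP_7df715_lc.ExponentialFacets

open Pool.Agent.R564.OnOff

lemma admissible (u : ℕ) (hu : 1 ≤ u) : Admissible (7 * u + 2) (fun _ => 1) (fun _ => 1)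
    (fun _ => 2) (fun _ => 7 * u + 2 - 1) := by
  refine ⟨fun _ => ⟨le_rfl, le_rfl, ?_⟩, fun _ => ⟨by norm_num, ?_, le_rfl⟩, fun _ => ?_⟩
  · show 1 ≤ 7 * u + 2 - 1
    omega
  · show 2 ≤ 7 * u + 2 - 1
    omega
  · refine ⟨?_, ?_, ?_, ?_⟩ <;> exact Nat.le_succ _

lemma exists_u (p : ℝ[X]) : ∃ u : ℕ, 1 ≤ u ∧ p.eval ((7 * u + 2 : ℕ) : ℝ) < 2 ^ u := by
  set q : ℝ[X] := p.comp (C 7 * X + C 2) with hq
  have h1 : (fun x : ℝ => q.eval x) =O[atTop] fun x : ℝ => (X ^ q.natDegree : ℝ[X]).eval x := by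
    apply Polynomial.isBigO_atTop_of_degree_le
    rw [degree_X_pow]
    exact degree_le_natDegree
  have h2 := h1.comp_tendsto (tendsto_natCast_atTop_atTop (R := ℝ))
  have h3 : (fun n : ℕ => (n : ℝ) ^ q.natDegree) =o[atTop] fun n : ℕ => (2 : ℝ) ^ n :=
    isLittleO_pow_const_const_pow_of_one_lt _ (by norm_num)
  have h4 : (fun n : ℕ => q.eval (n : ℝ)) =o[atTop] fun n : ℕ => (2 : ℝ) ^ n := by
    refine IsBigO.trans_isLittleO ?_ h3
    simpa [Function.comp_def] using h2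
  have h5 := h4.def (show (0 : ℝ) < 1 / 2 by norm_num)
  obtain ⟨u, hu1, hu2⟩ := (h5.and (eventually_ge_atTop 1)).exists
  refine ⟨u, hu2, ?_⟩
  have e : q.eval (u : ℝ) = p.eval ((7 * u + 2 : ℕ) : ℝ) := by
    rw [hq, eval_comp]
    simp
  rw [← e]
  have h6 : (0 : ℝ) < 2 ^ u := by positivity
  rw [Real.norm_eq_abs, Real.norm_eq_abs, abs_of_pos h6] at hu1
  have := le_abs_self (q.eval (u : ℝ))
  linarith

/-- **Q2 has a negative answer.** For every real polynomial `p` there are `n ≥ 2` and admissible,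
weakly monotone parameters for which the number of facets of `conv(Z(n, α, β, γ, δ))` exceeds
`p(n)`. More precisely, for `n = 7 u + 2` and `α = β = 1`, `γ = 2`, `δ = n - 1` there are at least
`2 ^ u` facets. -/
theorem result :
    (∀ p : ℝ[X], ∃ (n : ℕ) (_ : NeZero n) (α β γ δ : ZMod n → ℕ),
      2 ≤ n ∧ Admissible n α β γ δ ∧
        ∀ m : ℕ, (m : ℝ) ≤ p.eval (n : ℝ) →
          (m : ℕ∞) < {F | IsFacet (convexHull ℝ (Z n α β γ δ)) F}.encard) ∧
    ∀ u : ℕ, 1 ≤ u →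
      Admissible (7 * u + 2) (fun _ => 1) (fun _ => 1) (fun _ => 2) (fun _ => 7 * u + 2 - 1) ∧
      ((2 ^ u : ℕ) : ℕ∞) ≤ {F | IsFacet (convexHull ℝ
        (Z (7 * u + 2) (fun _ => 1) (fun _ => 1) (fun _ => 2) (fun _ => 7 * u + 2 - 1))) F}.encard
      := by
  refine ⟨fun p => ?_, fun u hu => ⟨admissible u hu, many u hu⟩⟩
  obtain ⟨u, hu, hpu⟩ := exists_u p
  refine ⟨7 * u + 2, inferInstance, _, _, _, _, by omega, admissible u hu, fun m hm => ?_⟩
  refine lt_of_lt_of_le ?_ (many u hu)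
  have : (m : ℝ) < ((2 ^ u : ℕ) : ℝ) := by
    push_cast
    linarith
  exact_mod_cast this

end Pool.Agent.Results.MP_7df715_lc.ExponentialFacets
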